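import Pool.Agent.W728.PK.Stms

/-!
# Lower bounds for `G`
-/

set_option autoImplicit false

namespace Pool.Agent.W366.PK

open Complex Metric Set Filter Topology MeasureTheory
open scoped Real ComplexConjugate
open Pool.Agent.W728.PK

theorem re_inv_half {z : ℂ} (hz : ‖z‖ ≤ 1) (h1 : z ≠ 1) : 1 / 2 ≤ (1 / (1 - z)).re := by
  have hne : 1 - z ≠ 0 := sub_ne_zero.2 (Ne.symm h1)
  have hpos : 0 < Complex.normSq (1 - z) := Complex.normSq_pos.2 hne
  rw [one_div (1 - z), Complex.inv_re, div_le_div_iff₀ two_pos hpos, Complex.normSq_apply]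
  have hz2 : z.re * z.re + z.im * z.im ≤ 1 := by
    have h2 : Complex.normSq z ≤ 1 := by
      rw [Complex.normSq_eq_norm_sq]
      exact pow_le_one₀ (norm_nonneg z) hz
    rwa [Complex.normSq_apply] at h2
  simp only [Complex.sub_re, Complex.one_re, Complex.sub_im, Complex.one_im]
  nlinarith

theorem rpow_neg_le_two_div {α t : ℝ} (h0 : 0 < α) (h1 : α < 1) (ht : 0 < t) (ht2 : t ≤ 2) :
    t ≤ 2 * t ^ α := by
  have h2 : t = t ^ (1 - α) * t ^ α := by
    rw [← Real.rpow_add ht, sub_add_cancel, Real.rpow_one]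
  have h3 : t ^ (1 - α) ≤ 2 := by
    calc t ^ (1 - α) ≤ 2 ^ (1 - α) := Real.rpow_le_rpow ht.le ht2 (by linarith)
      _ ≤ 2 ^ (1 : ℝ) := Real.rpow_le_rpow_of_exponent_le (by norm_num) (by linarith)
      _ = 2 := Real.rpow_one 2
  have h4 : 0 < t ^ α := Real.rpow_pos_of_pos ht α
  calc t = t ^ (1 - α) * t ^ α := h2
    _ ≤ 2 * t ^ α := mul_le_mul_of_nonneg_right h3 h4.le

theorem t_LB (hb : PhiBound_stmt) (hre : PhiRe_stmt) (hcl : CL_stmt) : LB_stmt := by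
  intro α h0 h1 ι p d F
  obtain ⟨C0, hC0, hker⟩ := F.kernel
  obtain ⟨C1, hC1, hrho⟩ := F.rho
  obtain ⟨c1, hc1, hc1'⟩ := hre α h0 h1
  have hEc : IsClosed (ES p) := hcl α h0 h1 ι p d F
  have hEn : (ES p).Nonempty := ⟨1, Or.inl rfl⟩
  set c2 : ℝ := min 1 (c1 / (2 * C1)) with hc2
  have hc2pos : 0 < c2 := lt_min one_pos (by positivity)
  set c : ℝ := min (c2 / 2) (min c1 (c2 / (C1 + 2))) with hc
  have hcpos : 0 < c := lt_min (by positivity) (lt_min hc1 (by positivity))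
  have hcc2 : c ≤ c2 := (min_le_left _ _).trans (by linarith)
  refine ⟨2 * C0 + 2, by linarith, c, hcpos, fun z hz hzE => ?_⟩
  set M : ℝ := 2 * C0 + 2 with hM
  have hz1 : z ≠ 1 := fun h => hzE (h ▸ Or.inl rfl)
  have hzp : ∀ i, z ≠ p i := fun i h => hzE (h ▸ Or.inr ⟨i, rfl⟩)
  have hδ : 0 < infDist z (ES p) := (hEc.notMem_iff_infDist_pos hEn).1 hzE
  have hδi : ∀ i, infDist z (ES p) ≤ ‖z - p i‖ := fun i => by
    rw [← dist_eq_norm]
    exact infDist_le_dist_of_mem (Or.inr ⟨i, rfl⟩)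
  set w : ι → ℂ := fun i => 1 - z * conj (p i) with hw
  have hwn : ∀ i, ‖w i‖ = ‖z - p i‖ := fun i => norm_w (F.norm_one i) z
  have hwr : ∀ i, 0 ≤ (w i).re := fun i => re_w (F.norm_one i) hz
  have hw0 : ∀ i, w i ≠ 0 := fun i => w_ne (F.norm_one i) (hzp i)
  have hzpp : ∀ i, 0 < ‖z - p i‖ := fun i => hδ.trans_le (hδi i)
  have hB : ∀ i, ‖Phi α (d i) (w i)‖ ≤ d i ^ (1 - α) / ‖z - p i‖ ∧ 0 ≤ (Phi α (d i) (w i)).re := by
    intro i
    have h2 := hb α (d i) h0 h1 (F.d_pos i) (w i) (hw0 i) (hwr i)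
    rw [hwn] at h2
    exact ⟨h2.1, h2.2.2⟩
  have hdp : ∀ i, 0 ≤ d i ^ (1 - α) := fun i => Real.rpow_nonneg (F.d_pos i).le _
  have hsum1 : Summable fun i => d i ^ (1 - α) / ‖z - p i‖ := by
    refine Summable.of_nonneg_of_le (fun i => div_nonneg (hdp i) (norm_nonneg _)) (fun i => ?_)
      (F.summ.div_const (infDist z (ES p)))
    exact div_le_div_of_nonneg_left (hdp i) hδ (hδi i)
  have hsum : Summable fun i => Phi α (d i) (w i) :=
    Summable.of_norm_bounded hsum1 fun i => (hB i).1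
  have hG : G α M p d z = (M : ℂ) / (1 - z) + ∑' i, Phi α (d i) (w i) := rfl
  have hSre : HasSum (fun i => (Phi α (d i) (w i)).re) (∑' i, Phi α (d i) (w i)).re :=
    Complex.hasSum_re hsum.hasSum
  have hS0 : 0 ≤ (∑' i, Phi α (d i) (w i)).re := hSre.nonneg fun i => (hB i).2
  have hMre : M / 2 ≤ ((M : ℂ) / (1 - z)).re := by
    have h2 : (M : ℂ) / (1 - z) = (M : ℂ) * (1 / (1 - z)) := by rw [mul_one_div]
    rw [h2, Complex.re_ofReal_mul]
    have h3 := re_inv_half hz hz1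
    have h4 : (0 : ℝ) < M := by rw [hM]; linarith
    nlinarith
  have hGre : M / 2 ≤ (G α M p d z).re := by
    rw [hG, Complex.add_re]
    linarith
  have hM1 : (1 : ℝ) < M / 2 := by rw [hM]; linarith
  have hGn : ∀ n, ‖z - p n‖ ≤ d n → c1 * ‖z - p n‖ ^ (-α) ≤ ‖G α M p d z‖ := by
    intro n hn
    have h2 := hc1' (d n) (F.d_pos n) (w n) (hw0 n) (hwr n) (by rw [hwn]; exact hn)
    rw [hwn] at h2
    have h3 : (Phi α (d n) (w n)).re ≤ (∑' i, Phi α (d i) (w i)).re :=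
      le_hasSum hSre n fun i _ => (hB i).2
    have h4 : (Phi α (d n) (w n)).re ≤ (G α M p d z).re := by
      rw [hG, Complex.add_re]
      linarith
    exact h2.trans (h4.trans (Complex.re_le_norm _))
  have hz1p : 0 < ‖1 - z‖ := norm_pos_iff.2 (sub_ne_zero.2 (Ne.symm hz1))
  have hfirst : c2 / ‖1 - z‖ ≤ ‖G α M p d z‖ := by
    by_cases hcase : ∀ i, d i ≤ ‖z - p i‖
    · have h2 : ‖∑' i, Phi α (d i) (w i)‖ ≤ C0 / ‖1 - z‖ := by
        refine (tsum_of_norm_bounded hsum1.hasSum fun i => (hB i).1).trans ?_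
        exact hsum1.tsum_le_of_sum_le fun s => hker z hz hz1 s fun i _ => hcase i
      have h3 : ‖(M : ℂ) / (1 - z)‖ = M / ‖1 - z‖ := by
        rw [norm_div, Complex.norm_real, Real.norm_eq_abs, abs_of_pos (by rw [hM]; linarith)]
      have h4 : ‖(M : ℂ) / (1 - z)‖ ≤ ‖G α M p d z‖ + ‖∑' i, Phi α (d i) (w i)‖ := by
        have h5 : (M : ℂ) / (1 - z) = G α M p d z - ∑' i, Phi α (d i) (w i) := by
          rw [hG]; ring
        rw [h5]
        exact norm_sub_le _ _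
      have h5 : c2 / ‖1 - z‖ ≤ 1 / ‖1 - z‖ :=
        div_le_div_of_nonneg_right (min_le_left _ _) hz1p.le
      have h6 : M / ‖1 - z‖ = 2 * (C0 / ‖1 - z‖) + 2 * (1 / ‖1 - z‖) := by rw [hM]; ring
      have h7 : 0 < C0 / ‖1 - z‖ := by positivity
      have h8 : 0 < 1 / ‖1 - z‖ := by positivity
      linarith
    · push Not at hcase
      obtain ⟨n, hn⟩ := hcase
      have h2 := hGn n hn.le
      have hdn := F.d_pos n
      have h3 : ‖1 - p n‖ ≤ ‖1 - z‖ + ‖z - p n‖ := by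
        have h4 : (1 : ℂ) - p n = (1 - z) + (z - p n) := by ring
        rw [h4]; exact norm_add_le _ _
      have h4 := F.d_le n
      have h5 := (hrho n).2
      have h6 : d n ^ α ≤ 2 * C1 * ‖1 - z‖ := by nlinarith
      have h7 : 0 < ‖z - p n‖ ^ α := Real.rpow_pos_of_pos (hzpp n) α
      have h8 : ‖z - p n‖ ^ α ≤ 2 * C1 * ‖1 - z‖ :=
        (Real.rpow_le_rpow (hzpp n).le hn.le h0.le).trans h6
      calc c2 / ‖1 - z‖ ≤ (c1 / (2 * C1)) / ‖1 - z‖ :=
            div_le_div_of_nonneg_right (min_le_right _ _) hz1p.le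
        _ = c1 / (2 * C1 * ‖1 - z‖) := by rw [div_div]
        _ ≤ c1 / ‖z - p n‖ ^ α := div_le_div_of_nonneg_left hc1.le h7 h8
        _ = c1 * ‖z - p n‖ ^ (-α) := by rw [Real.rpow_neg (hzpp n).le, div_eq_mul_inv]
        _ ≤ _ := h2
  refine ⟨by linarith, ?_, ?_⟩
  · exact (div_le_div_of_nonneg_right hcc2 hz1p.le).trans hfirst
  · obtain ⟨e, heE, he⟩ := hEc.exists_infDist_eq_dist hEn z
    rw [he, dist_eq_norm]
    rcases heE with rfl | ⟨k, rfl⟩
    · rw [norm_sub_rev]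
      have h2 : ‖1 - z‖ ≤ 2 := by
        calc ‖1 - z‖ ≤ ‖(1 : ℂ)‖ + ‖z‖ := norm_sub_le _ _
          _ ≤ 2 := by rw [norm_one]; linarith
      have h3 := rpow_neg_le_two_div h0 h1 hz1p h2
      have h4 : 0 < ‖1 - z‖ ^ α := Real.rpow_pos_of_pos hz1p α
      rw [Real.rpow_neg hz1p.le, ← div_eq_mul_inv]
      calc c / ‖1 - z‖ ^ α ≤ (c2 / 2) / ‖1 - z‖ ^ α :=
            div_le_div_of_nonneg_right (min_le_left _ _) h4.le
        _ = c2 / (2 * ‖1 - z‖ ^ α) := by rw [div_div]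
        _ ≤ c2 / ‖1 - z‖ := div_le_div_of_nonneg_left hc2pos.le hz1p h3
        _ ≤ _ := hfirst
    · have h4 : 0 < ‖z - p k‖ ^ α := Real.rpow_pos_of_pos (hzpp k) α
      by_cases hk : ‖z - p k‖ ≤ d k
      · refine le_trans ?_ (hGn k hk)
        exact mul_le_mul_of_nonneg_right ((min_le_right _ _).trans (min_le_left _ _))
          (Real.rpow_nonneg (hzpp k).le _)
      · rw [not_le] at hk
        have h2 : ‖z - p k‖ ≤ 2 := by
          calc ‖z - p k‖ ≤ ‖z‖ + ‖p k‖ := norm_sub_le _ _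
            _ ≤ 2 := by rw [F.norm_one]; linarith
        have h3 := rpow_neg_le_two_div h0 h1 (hzpp k) h2
        have h5 : ‖1 - z‖ ≤ ‖1 - p k‖ + ‖z - p k‖ := by
          have h6 : (1 : ℂ) - z = (1 - p k) - (z - p k) := by ring
          rw [h6]; exact norm_sub_le _ _
        have h6 : d k ^ α ≤ ‖z - p k‖ ^ α := Real.rpow_le_rpow (F.d_pos k).le hk.le h0.le
        have h7 : ‖1 - z‖ ≤ (C1 + 2) * ‖z - p k‖ ^ α := by
          have h8 := (hrho k).1
          nlinarith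
        rw [Real.rpow_neg (hzpp k).le, ← div_eq_mul_inv]
        calc c / ‖z - p k‖ ^ α ≤ (c2 / (C1 + 2)) / ‖z - p k‖ ^ α :=
              div_le_div_of_nonneg_right ((min_le_right _ _).trans (min_le_right _ _)) h4.le
          _ = c2 / ((C1 + 2) * ‖z - p k‖ ^ α) := by rw [div_div]
          _ ≤ c2 / ‖1 - z‖ := div_le_div_of_nonneg_left hc2pos.le hz1p h7
          _ ≤ _ := hfirst

end Pool.Agent.W366.PK
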