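import Pool.Agent.W841.PK.ChkS

set_option autoImplicit false

/-! # The cell masses -/

namespace Pool.Agent.W366.PK

open W841.PK W841.PK.Chk

theorem frc_eq {α : Type} (n : ℕ) (f : ℕ → α) : frc n f = f n := by cases n <;> rfl

/-- lower bound of `2 ^ 100 / √(2 π)` -/
def Gl : ℕ := 505719421207294732937336198411

/-- upper bound of `2 ^ 100 / √(2 π)` -/
def Gh : ℕ := 505719421207294732938141075869

/-- the check of the cells -/
def stp (q Dl Dh : ℕ) : List ℕ → List ℕ → ℕ → ℕ → ℕ → ℕ → ℕ → Bool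
  | u :: us, l :: ls, i, El, Eh, Rl, Rh =>
    (Nat.ble ((50 * Gh * Eh * (393216 * q ^ 4 + (2 * i + 1) ^ 2 - 256 * q ^ 2) + 3 * 2 ^ 200) *
        2 ^ 40) (u * (78643200 * q ^ 5 * 2 ^ 200)) &&
      (Nat.beq l 0 || Nat.ble (l * (78643200 * q ^ 5 * 2 ^ 200) + 3 * 2 ^ 240)
        (50 * Gl * El * (393216 * q ^ 4 + (2 * i + 1) ^ 2 - 256 * q ^ 2) * 2 ^ 40))) &&
    frc (i + 1) fun i' => frc (El * Rl / 2 ^ 100) fun El' => frc (Eh * Rh / 2 ^ 100 + 1) fun Eh' =>
    frc (Rl * Dl / 2 ^ 100) fun Rl' => frc (Rh * Dh / 2 ^ 100 + 1) fun Rh' =>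
    stp q Dl Dh us ls i' El' Eh' Rl' Rh'
  | _, _, _, _, _, _, _ => true

theorem chk1 : stp 1 1247997499292459201687831112341 1247997499292459201687831112382 CU1 CL1 0
    1265177136427944023442842475266 1265177136427944023442842475271
    1247997499292459201687831112341 1247997499292459201687831112382 = true := by decide +kernel

theorem chk2 : stp 2 1262708498896955737732895771668 1262708498896955737732895771708 CU2 CL2 0
    1267031781299721506529526751568 1267031781299721506529526751573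
    1262708498896955737732895771668 1262708498896955737732895771708 = true := by decide +kernel

theorem chk3 : stp 3 1265451727232385067212117353994 1265451727232385067212117354035 CU3 CL3 0
    1267375532289582604097144000607 1267375532289582604097144000612
    1265451727232385067212117353994 1265451727232385067212117354035 = true := by decide +kernel

theorem chk4 : stp 4 1266413264455136587431875831715 1266413264455136587431875831756 CU4 CL4 0
    1267495867167667399261266664195 1267495867167667399261266664200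
    1266413264455136587431875831715 1266413264455136587431875831756 = true := by decide +kernel

/-- the scaled density at the midpoints -/
noncomputable def Ee (q i : ℕ) : ℝ := Real.exp (-((2 * i + 1) ^ 2 / (512 * q ^ 2)))

/-- the ratios -/
noncomputable def Rr (q i : ℕ) : ℝ := Real.exp (-(8 * (i + 1) / (512 * q ^ 2)))

theorem Ee_succ (q i : ℕ) (hq : 0 < q) : Ee q (i + 1) = Ee q i * Rr q i := by
  unfold Ee Rr
  rw [← Real.exp_add]
  congr 1
  have : (q : ℝ) ≠ 0 := by exact_mod_cast hq.ne'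
  push_cast
  field_simp
  ring

theorem Rr_succ (q i : ℕ) (hq : 0 < q) : Rr q (i + 1) = Rr q i * Rr q 0 := by
  unfold Rr
  rw [← Real.exp_add]
  congr 1
  have : (q : ℝ) ≠ 0 := by exact_mod_cast hq.ne'
  push_cast
  field_simp
  ring

theorem Rr_zero (q : ℕ) : Rr q 0 = Ee q 0 ^ 8 := by
  unfold Rr Ee
  rw [← Real.exp_nat_mul]
  congr 1
  push_cast
  ring

/-- the number `x * 2 ^ 100` is between `l` and `h` -/
def Enc (l h : ℕ) (x : ℝ) : Prop := (l : ℝ) ≤ x * 2 ^ 100 ∧ x * 2 ^ 100 ≤ (h : ℝ)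

theorem Enc.mul {l h l' h' : ℕ} {x y : ℝ} (hx : Enc l h x) (hy : Enc l' h' y) :
    Enc (l * l' / 2 ^ 100) (h * h' / 2 ^ 100 + 1) (x * y) := by
  have h100 : (0 : ℝ) < 2 ^ 100 := by positivity
  have hx0 : 0 ≤ x * 2 ^ 100 := le_trans (Nat.cast_nonneg _) hx.1
  have hy0 : 0 ≤ y * 2 ^ 100 := le_trans (Nat.cast_nonneg _) hy.1
  have e1 : (x * y * 2 ^ 100) * 2 ^ 100 = (x * 2 ^ 100) * (y * 2 ^ 100) := by ring
  constructor
  · have h1 : ((l * l' / 2 ^ 100 : ℕ) : ℝ) * 2 ^ 100 ≤ (l : ℝ) * l' := by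
      have := Nat.div_mul_le_self (l * l') (2 ^ 100)
      exact_mod_cast this
    have h2 : (l : ℝ) * l' ≤ (x * 2 ^ 100) * (y * 2 ^ 100) :=
      mul_le_mul hx.1 hy.1 (Nat.cast_nonneg _) hx0
    rw [← e1] at h2
    exact le_of_mul_le_mul_right (h1.trans h2) h100
  · have h1 : (h : ℝ) * h' ≤ ((h * h' / 2 ^ 100 + 1 : ℕ) : ℝ) * 2 ^ 100 := by
      have h3 := Nat.lt_div_mul_add (a := h * h') (b := 2 ^ 100) (by positivity)
      have h4 : h * h' ≤ (h * h' / 2 ^ 100 + 1) * 2 ^ 100 := by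
        rw [add_mul, one_mul]
        exact h3.le
      exact_mod_cast h4
    have h2 : (x * 2 ^ 100) * (y * 2 ^ 100) ≤ (h : ℝ) * h' :=
      mul_le_mul hx.2 hy.2 hy0 (Nat.cast_nonneg _)
    rw [← e1] at h2
    exact le_of_mul_le_mul_right (h2.trans h1) h100

/-- the statement for the cell `i` -/
def CellOK (q i u l : ℕ) : Prop :=
  cm (1 / (8 * q)) i * 2 ^ 40 ≤ (u : ℝ) ∧ (l : ℝ) ≤ cm (1 / (8 * q)) i * 2 ^ 40

theorem enc_G : Enc Gl Gh (1 / √(2 * Real.pi)) := by
  have hpi := Real.pi_gt_d20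
  have hpi2 := Real.pi_lt_d20
  have hpos : 0 < 2 * Real.pi := by positivity
  have hs : 0 < √(2 * Real.pi) := Real.sqrt_pos.2 hpos
  constructor
  · rw [div_mul_eq_mul_div, one_mul, le_div_iff₀ hs, mul_comm]
    have h1 : √(2 * Real.pi) ≤ 2 ^ 100 / (Gl : ℝ) := by
      rw [Real.sqrt_le_left (by positivity), div_pow]
      rw [le_div_iff₀ (by norm_num [Gl])]
      calc 2 * Real.pi * (Gl : ℝ) ^ 2 ≤ 2 * 3.14159265358979323847 * (Gl : ℝ) ^ 2 := by
            gcongr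
        _ ≤ (2 ^ 100) ^ 2 := by norm_num [Gl]
    rwa [le_div_iff₀ (by norm_num [Gl])] at h1
  · rw [div_mul_eq_mul_div, one_mul, div_le_iff₀ hs, mul_comm]
    have h1 : 2 ^ 100 / (Gh : ℝ) ≤ √(2 * Real.pi) := by
      apply Real.le_sqrt_of_sq_le
      rw [div_pow, div_le_iff₀ (by norm_num [Gh])]
      calc ((2 : ℝ) ^ 100) ^ 2 ≤ 2 * 3.14159265358979323846 * (Gh : ℝ) ^ 2 := by
            norm_num [Gh]
        _ ≤ 2 * Real.pi * (Gh : ℝ) ^ 2 := by
            gcongr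
    rwa [div_le_iff₀ (by norm_num [Gh])] at h1

theorem cell (hg : S_Gauss) (hc : S_Cm) (q i u l El Eh : ℕ) (hq : 0 < q)
    (hE : Enc El Eh (Ee q i))
    (h1 : (50 * Gh * Eh * (393216 * q ^ 4 + (2 * i + 1) ^ 2 - 256 * q ^ 2) + 3 * 2 ^ 200) *
        2 ^ 40 ≤ u * (78643200 * q ^ 5 * 2 ^ 200))
    (h2 : l = 0 ∨ l * (78643200 * q ^ 5 * 2 ^ 200) + 3 * 2 ^ 240 ≤
        50 * Gl * El * (393216 * q ^ 4 + (2 * i + 1) ^ 2 - 256 * q ^ 2) * 2 ^ 40) :
    CellOK q i u l := by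
  have hq0 : (q : ℝ) ≠ 0 := by exact_mod_cast hq.ne'
  have hq1 : (1 : ℝ) ≤ q := by exact_mod_cast hq
  have hκ0 : (0 : ℝ) < 1 / (8 * q) := by positivity
  have hκ1 : (1 : ℝ) / (8 * q) ≤ 1 := by
    rw [div_le_one (by positivity)]
    linarith
  have hG := enc_G
  have h3 := hc (1 / (8 * q)) i hκ0 hκ1
  set G : ℝ := 1 / √(2 * Real.pi) with hGdef
  have hN : 256 * q ^ 2 ≤ 393216 * q ^ 4 + (2 * i + 1) ^ 2 := by
    have : q ^ 2 ≤ q ^ 4 := Nat.pow_le_pow_right hq (by norm_num)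
    omega
  set N : ℕ := 393216 * q ^ 4 + (2 * i + 1) ^ 2 - 256 * q ^ 2 with hNdef
  have hNr : (N : ℝ) = 393216 * q ^ 4 + (2 * i + 1) ^ 2 - 256 * q ^ 2 := by
    rw [hNdef, Nat.cast_sub hN]
    push_cast
    ring
  have hgd : gd ((i + 1 / 2) * (1 / (8 * q))) = G * Ee q i := by
    unfold gd Ee
    rw [hGdef, div_eq_mul_one_div, mul_comm]
    congr 2
    field_simp
    ring
  have hv : 2 * (1 / (8 * (q : ℝ))) * gd ((i + 1 / 2) * (1 / (8 * q))) *
      (1 + (1 / (8 * (q : ℝ))) ^ 2 * (((i + 1 / 2) * (1 / (8 * q))) ^ 2 - 1) / 24) =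
      50 * (G * Ee q i) * N / (78643200 * q ^ 5) := by
    rw [hgd, hNr]
    field_simp
    ring
  have he : (1 / (8 * (q : ℝ))) ^ 5 / 800 = 3 / (78643200 * q ^ 5) := by
    field_simp
    norm_num
  rw [hv, he] at h3
  have h4 := abs_le.1 h3
  have hE0 : 0 ≤ Ee q i := (Real.exp_pos _).le
  have hG0 : 0 ≤ G := by positivity
  have hden : (0 : ℝ) < 78643200 * q ^ 5 := by positivity
  have hN0 : (0 : ℝ) ≤ N := Nat.cast_nonneg _
  constructor
  · have h5 : cm (1 / (8 * q)) i ≤ (50 * (G * Ee q i) * N + 3) / (78643200 * q ^ 5) := by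
      rw [add_div]; linarith [h4.2]
    have h6 : (G * 2 ^ 100) * (Ee q i * 2 ^ 100) ≤ (Gh : ℝ) * Eh :=
      mul_le_mul hG.2 hE.2 (by positivity) (Nat.cast_nonneg _)
    have h7 : ((50 * Gh * Eh * N + 3 * 2 ^ 200) * 2 ^ 40 : ℝ) ≤ u * (78643200 * q ^ 5 * 2 ^ 200) := by
      exact_mod_cast h1
    have h8 : (50 * (G * Ee q i) * N + 3) * 2 ^ 40 ≤ u * (78643200 * q ^ 5) := by
      have h9 : (50 * (G * Ee q i) * N + 3) * 2 ^ 40 * 2 ^ 200 ≤ (u * (78643200 * q ^ 5)) * 2 ^ 200 := by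
        calc (50 * (G * Ee q i) * N + 3) * 2 ^ 40 * 2 ^ 200
            = (50 * ((G * 2 ^ 100) * (Ee q i * 2 ^ 100)) * N + 3 * 2 ^ 200) * 2 ^ 40 := by ring
          _ ≤ (50 * ((Gh : ℝ) * Eh) * N + 3 * 2 ^ 200) * 2 ^ 40 := by gcongr
          _ = (50 * Gh * Eh * N + 3 * 2 ^ 200) * 2 ^ 40 := by ring
          _ ≤ u * (78643200 * q ^ 5 * 2 ^ 200) := h7
          _ = _ := by ring
      exact le_of_mul_le_mul_right h9 (by positivity)
    calc cm (1 / (8 * q)) i * 2 ^ 40 ≤ (50 * (G * Ee q i) * N + 3) / (78643200 * q ^ 5) * 2 ^ 40 := by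
          gcongr
      _ = ((50 * (G * Ee q i) * N + 3) * 2 ^ 40) / (78643200 * q ^ 5) := by ring
      _ ≤ u := by rw [div_le_iff₀ hden]; exact h8
  · have hcm0 : 0 ≤ cm (1 / (8 * q)) i := by
      unfold cm
      have : Ph (i * (1 / (8 * q))) ≤ Ph ((i + 1) * (1 / (8 * q))) := by
        apply hg.2.2.2.1
        gcongr
        linarith
      linarith
    rcases h2 with h2 | h2
    · rw [h2, Nat.cast_zero]
      positivity
    · have h5 : (50 * (G * Ee q i) * N - 3) / (78643200 * q ^ 5) ≤ cm (1 / (8 * q)) i := by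
        rw [sub_div]; linarith [h4.1]
      have h6 : (Gl : ℝ) * El ≤ (G * 2 ^ 100) * (Ee q i * 2 ^ 100) :=
        mul_le_mul hG.1 hE.1 (Nat.cast_nonneg _) (by positivity)
      have h7 : (l * (78643200 * q ^ 5 * 2 ^ 200) + 3 * 2 ^ 240 : ℝ) ≤ 50 * Gl * El * N * 2 ^ 40 := by
        exact_mod_cast h2
      have h10 : 50 * ((Gl : ℝ) * El) * N * 2 ^ 40 ≤
          50 * ((G * 2 ^ 100) * (Ee q i * 2 ^ 100)) * N * 2 ^ 40 := by gcongr
      have h8 : (l : ℝ) * (78643200 * (q : ℝ) ^ 5) ≤ (50 * (G * Ee q i) * N - 3) * 2 ^ 40 := by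
        have h9 : ((l : ℝ) * (78643200 * (q : ℝ) ^ 5)) * 2 ^ 200 ≤
            (50 * (G * Ee q i) * N - 3) * 2 ^ 40 * 2 ^ 200 := by
          linarith
        exact le_of_mul_le_mul_right h9 (by positivity)
      calc (l : ℝ) ≤ ((50 * (G * Ee q i) * N - 3) * 2 ^ 40) / (78643200 * q ^ 5) := by
            rw [le_div_iff₀ hden]; exact h8
        _ = (50 * (G * Ee q i) * N - 3) / (78643200 * q ^ 5) * 2 ^ 40 := by ring
        _ ≤ cm (1 / (8 * q)) i * 2 ^ 40 := by gcongr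

theorem stp_sound (hg : S_Gauss) (hc : S_Cm) (q Dl Dh : ℕ) (hq : 0 < q) (hD : Enc Dl Dh (Rr q 0)) :
    ∀ (us ls : List ℕ) (i El Eh Rl Rh : ℕ), Enc El Eh (Ee q i) → Enc Rl Rh (Rr q i) →
      stp q Dl Dh us ls i El Eh Rl Rh = true →
      ∀ k < us.length, k < ls.length → CellOK q (i + k) (us.getD k 0) (ls.getD k 0)
  | u :: us, l :: ls, i, El, Eh, Rl, Rh, hE, hR, h, k, hk, hk' => by
    simp only [stp, frc_eq, Bool.and_eq_true, Bool.or_eq_true, Nat.ble_eq, Nat.beq_eq] at h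
    cases k with
    | zero =>
      exact cell hg hc q i u l El Eh hq hE h.1.1 h.1.2
    | succ k =>
      have h2 := stp_sound hg hc q Dl Dh hq hD us ls (i + 1) _ _ _ _
        (by rw [Ee_succ q i hq]; exact hE.mul hR) (by rw [Rr_succ q i hq]; exact hR.mul hD) h.2 k
        (by simpa using hk) (by simpa using hk')
      rw [show i + (k + 1) = i + 1 + k by ring]
      exact h2
  | [], _, _, _, _, _, _, _, _, _, _, hk, _ => absurd hk (by simp)
  | _ :: _, [], _, _, _, _, _, _, _, _, _, _, hk' => absurd hk' (by simp)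

theorem enc_exp (x : ℝ) (lo hi : ℕ) (hx : |x| ≤ 1)
    (h1 : (lo : ℝ) ≤ ((∑ m ∈ Finset.range 10, x ^ m / m.factorial) -
      |x| ^ 10 * ((Nat.succ 10 : ℕ) / (Nat.factorial 10 * (10 : ℕ)))) * 2 ^ 100)
    (h2 : ((∑ m ∈ Finset.range 10, x ^ m / m.factorial) +
      |x| ^ 10 * ((Nat.succ 10 : ℕ) / (Nat.factorial 10 * (10 : ℕ)))) * 2 ^ 100 ≤ hi) :
    Enc lo hi (Real.exp x) := by
  have h := abs_le.1 (Real.exp_bound hx (n := 10) (by norm_num))
  constructor
  · refine h1.trans ?_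
    gcongr
    linarith [h.1]
  · refine le_trans ?_ h2
    gcongr
    linarith [h.2]

theorem enc_pow8 {lo hi dl dh : ℕ} {x : ℝ} (h : Enc lo hi x) (h1 : dl * (2 ^ 100) ^ 7 ≤ lo ^ 8)
    (h2 : hi ^ 8 ≤ dh * (2 ^ 100) ^ 7) : Enc dl dh (x ^ 8) := by
  have hx0 : 0 ≤ x * 2 ^ 100 := le_trans (Nat.cast_nonneg _) h.1
  have e : (x ^ 8 * 2 ^ 100) * (2 ^ 100) ^ 7 = (x * 2 ^ 100) ^ 8 := by ring
  constructor
  · have h3 : (dl : ℝ) * (2 ^ 100) ^ 7 ≤ (lo : ℝ) ^ 8 := by exact_mod_cast h1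
    have h4 : (lo : ℝ) ^ 8 ≤ (x * 2 ^ 100) ^ 8 := pow_le_pow_left₀ (Nat.cast_nonneg _) h.1 8
    rw [← e] at h4
    exact le_of_mul_le_mul_right (h3.trans h4) (by positivity)
  · have h3 : (hi : ℝ) ^ 8 ≤ (dh : ℝ) * (2 ^ 100) ^ 7 := by exact_mod_cast h2
    have h4 : (x * 2 ^ 100) ^ 8 ≤ (hi : ℝ) ^ 8 := pow_le_pow_left₀ hx0 h.2 8
    rw [← e] at h4
    exact le_of_mul_le_mul_right (h4.trans h3) (by positivity)

theorem encE (q lo hi : ℕ) (x : ℝ) (hx : x = -((2 * (0 : ℕ) + 1) ^ 2 / (512 * (q : ℝ) ^ 2)))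
    (h : Enc lo hi (Real.exp x)) : Enc lo hi (Ee q 0) := by
  unfold Ee
  rwa [← hx]

theorem tabc (hg : S_Gauss) (hc : S_Cm) : S_TabC := by
  have e1 : Enc 1265177136427944023442842475266 1265177136427944023442842475271 (Ee 1 0) :=
    encE 1 _ _ (-1 / 512) (by norm_num) (enc_exp _ _ _ (by rw [abs_le]; norm_num)
      (by norm_num [Finset.sum_range_succ, Nat.factorial, abs_of_neg])
      (by norm_num [Finset.sum_range_succ, Nat.factorial, abs_of_neg]))
  have e2 : Enc 1267031781299721506529526751568 1267031781299721506529526751573 (Ee 2 0) :=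
    encE 2 _ _ (-1 / 2048) (by norm_num) (enc_exp _ _ _ (by rw [abs_le]; norm_num)
      (by norm_num [Finset.sum_range_succ, Nat.factorial, abs_of_neg])
      (by norm_num [Finset.sum_range_succ, Nat.factorial, abs_of_neg]))
  have e3 : Enc 1267375532289582604097144000607 1267375532289582604097144000612 (Ee 3 0) :=
    encE 3 _ _ (-1 / 4608) (by norm_num) (enc_exp _ _ _ (by rw [abs_le]; norm_num)
      (by norm_num [Finset.sum_range_succ, Nat.factorial, abs_of_neg])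
      (by norm_num [Finset.sum_range_succ, Nat.factorial, abs_of_neg]))
  have e4 : Enc 1267495867167667399261266664195 1267495867167667399261266664200 (Ee 4 0) :=
    encE 4 _ _ (-1 / 8192) (by norm_num) (enc_exp _ _ _ (by rw [abs_le]; norm_num)
      (by norm_num [Finset.sum_range_succ, Nat.factorial, abs_of_neg])
      (by norm_num [Finset.sum_range_succ, Nat.factorial, abs_of_neg]))
  have d1 : Enc 1247997499292459201687831112341 1247997499292459201687831112382 (Rr 1 0) := by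
    rw [Rr_zero]; exact enc_pow8 e1 (by norm_num) (by norm_num)
  have d2 : Enc 1262708498896955737732895771668 1262708498896955737732895771708 (Rr 2 0) := by
    rw [Rr_zero]; exact enc_pow8 e2 (by norm_num) (by norm_num)
  have d3 : Enc 1265451727232385067212117353994 1265451727232385067212117354035 (Rr 3 0) := by
    rw [Rr_zero]; exact enc_pow8 e3 (by norm_num) (by norm_num)
  have d4 : Enc 1266413264455136587431875831715 1266413264455136587431875831756 (Rr 4 0) := by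
    rw [Rr_zero]; exact enc_pow8 e4 (by norm_num) (by norm_num)
  refine ⟨fun i hi => ?_, fun i hi => ?_, fun i hi => ?_, fun i hi => ?_⟩
  · have h := stp_sound hg hc 1 _ _ one_pos d1 CU1 CL1 0 _ _ _ _ e1 d1 chk1 i hi hi
    unfold CellOK at h
    norm_num at h ⊢
    exact h
  · have h := stp_sound hg hc 2 _ _ two_pos d2 CU2 CL2 0 _ _ _ _ e2 d2 chk2 i hi hi
    unfold CellOK at h
    norm_num at h ⊢
    exact h
  · have h := stp_sound hg hc 3 _ _ three_pos d3 CU3 CL3 0 _ _ _ _ e3 d3 chk3 i hi hi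
    unfold CellOK at h
    norm_num at h ⊢
    exact h
  · have h := stp_sound hg hc 4 _ _ four_pos d4 CU4 CL4 0 _ _ _ _ e4 d4 chk4 i hi hi
    unfold CellOK at h
    norm_num at h ⊢
    exact h

end Pool.Agent.W366.PK
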